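import Pool.Agent.H6N7.Leaf2
import Pool.Agent.H6N7.Blk
import Pool.Agent.H6N7.CovData

set_option autoImplicit false
set_option maxRecDepth 100000

/-!
# Kernel checks of the pointwise inequality (generated file)
-/

namespace Pool.Agent.H6N7

open Pool.Agent.H6Turan

theorem leafs_L01 :
    allLt (fun j => leafOK row blk 48000 9129456 (rt (Nat.add 246 j))) 6 = true ∧
    allLt (fun j => leafOK row blk 48000 9129456 (rt (Nat.add 252 j))) 6 = true ∧
    allLt (fun j => leafOK row blk 48000 9129456 (rt (Nat.add 258 j))) 6 = true ∧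
    allLt (fun j => leafOK row blk 48000 9129456 (rt (Nat.add 264 j))) 6 = true ∧
    allLt (fun j => leafOK row blk 48000 9129456 (rt (Nat.add 270 j))) 6 = true ∧
    allLt (fun j => leafOK row blk 48000 9129456 (rt (Nat.add 276 j))) 6 = true ∧
    allLt (fun j => leafOK row blk 48000 9129456 (rt (Nat.add 282 j))) 6 = true ∧
    allLt (fun j => leafOK row blk 48000 9129456 (rt (Nat.add 288 j))) 6 = true ∧
    allLt (fun j => leafOK row blk 48000 9129456 (rt (Nat.add 294 j))) 6 = true ∧
    allLt (fun j => leafOK row blk 48000 9129456 (rt (Nat.add 300 j))) 6 = true ∧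
    allLt (fun j => leafOK row blk 48000 9129456 (rt (Nat.add 306 j))) 6 = true ∧
    allLt (fun j => leafOK row blk 48000 9129456 (rt (Nat.add 312 j))) 6 = true ∧
    allLt (fun j => leafOK row blk 48000 9129456 (rt (Nat.add 318 j))) 6 = true ∧
    allLt (fun j => leafOK row blk 48000 9129456 (rt (Nat.add 324 j))) 6 = true ∧
    allLt (fun j => leafOK row blk 48000 9129456 (rt (Nat.add 330 j))) 6 = true ∧
    allLt (fun j => leafOK row blk 48000 9129456 (rt (Nat.add 336 j))) 6 = true ∧
    allLt (fun j => leafOK row blk 48000 9129456 (rt (Nat.add 342 j))) 6 = true ∧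
    allLt (fun j => leafOK row blk 48000 9129456 (rt (Nat.add 348 j))) 6 = true ∧
    allLt (fun j => leafOK row blk 48000 9129456 (rt (Nat.add 354 j))) 6 = true ∧
    allLt (fun j => leafOK row blk 48000 9129456 (rt (Nat.add 360 j))) 6 = true ∧
    allLt (fun j => leafOK row blk 48000 9129456 (rt (Nat.add 366 j))) 6 = true ∧
    allLt (fun j => leafOK row blk 48000 9129456 (rt (Nat.add 372 j))) 6 = true ∧
    allLt (fun j => leafOK row blk 48000 9129456 (rt (Nat.add 378 j))) 6 = true ∧
    allLt (fun j => leafOK row blk 48000 9129456 (rt (Nat.add 384 j))) 6 = true ∧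
    allLt (fun j => leafOK row blk 48000 9129456 (rt (Nat.add 390 j))) 6 = true ∧
    allLt (fun j => leafOK row blk 48000 9129456 (rt (Nat.add 396 j))) 6 = true ∧
    allLt (fun j => leafOK row blk 48000 9129456 (rt (Nat.add 402 j))) 6 = true ∧
    allLt (fun j => leafOK row blk 48000 9129456 (rt (Nat.add 408 j))) 6 = true ∧
    allLt (fun j => leafOK row blk 48000 9129456 (rt (Nat.add 414 j))) 6 = true ∧
    allLt (fun j => leafOK row blk 48000 9129456 (rt (Nat.add 420 j))) 6 = true ∧
    allLt (fun j => leafOK row blk 48000 9129456 (rt (Nat.add 426 j))) 6 = true ∧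
    allLt (fun j => leafOK row blk 48000 9129456 (rt (Nat.add 432 j))) 6 = true ∧
    allLt (fun j => leafOK row blk 48000 9129456 (rt (Nat.add 438 j))) 6 = true ∧
    allLt (fun j => leafOK row blk 48000 9129456 (rt (Nat.add 444 j))) 6 = true ∧
    allLt (fun j => leafOK row blk 48000 9129456 (rt (Nat.add 450 j))) 6 = true ∧
    allLt (fun j => leafOK row blk 48000 9129456 (rt (Nat.add 456 j))) 6 = true ∧
    allLt (fun j => leafOK row blk 48000 9129456 (rt (Nat.add 462 j))) 6 = true ∧
    allLt (fun j => leafOK row blk 48000 9129456 (rt (Nat.add 468 j))) 6 = true ∧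
    allLt (fun j => leafOK row blk 48000 9129456 (rt (Nat.add 474 j))) 6 = true ∧
    allLt (fun j => leafOK row blk 48000 9129456 (rt (Nat.add 480 j))) 6 = true ∧
    allLt (fun j => leafOK row blk 48000 9129456 (rt (Nat.add 486 j))) 6 = true := by
  refine ⟨?_, ?_, ?_, ?_, ?_, ?_, ?_, ?_, ?_, ?_, ?_, ?_, ?_, ?_, ?_, ?_, ?_, ?_, ?_, ?_, ?_, ?_, ?_, ?_, ?_, ?_, ?_, ?_, ?_, ?_, ?_, ?_, ?_, ?_, ?_, ?_, ?_, ?_, ?_, ?_, ?_⟩ <;> decide +kernel

end Pool.Agent.H6N7
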