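import Pool.Agent.H6N7.L.L00
import Pool.Agent.H6N7.Leaf2
import Pool.Agent.H6N7.Blk
import Pool.Agent.H6N7.CovData

set_option autoImplicit false
set_option maxRecDepth 100000

/-!
# Kernel checks of the pointwise inequality (generated file)
-/

namespace Pool.Agent.H6N7

open Pool.Agent.H6Turan

theorem leafs_L02 :
    allLt (fun j => leafOK row blk 48000 9129456 (rt (Nat.add 492 j))) 6 = true ∧
    allLt (fun j => leafOK row blk 48000 9129456 (rt (Nat.add 498 j))) 6 = true ∧
    allLt (fun j => leafOK row blk 48000 9129456 (rt (Nat.add 504 j))) 6 = true ∧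
    allLt (fun j => leafOK row blk 48000 9129456 (rt (Nat.add 510 j))) 6 = true ∧
    allLt (fun j => leafOK row blk 48000 9129456 (rt (Nat.add 516 j))) 6 = true ∧
    allLt (fun j => leafOK row blk 48000 9129456 (rt (Nat.add 522 j))) 6 = true ∧
    allLt (fun j => leafOK row blk 48000 9129456 (rt (Nat.add 528 j))) 6 = true ∧
    allLt (fun j => leafOK row blk 48000 9129456 (rt (Nat.add 534 j))) 6 = true ∧
    allLt (fun j => leafOK row blk 48000 9129456 (rt (Nat.add 540 j))) 6 = true ∧
    allLt (fun j => leafOK row blk 48000 9129456 (rt (Nat.add 546 j))) 6 = true ∧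
    allLt (fun j => leafOK row blk 48000 9129456 (rt (Nat.add 552 j))) 6 = true ∧
    allLt (fun j => leafOK row blk 48000 9129456 (rt (Nat.add 558 j))) 6 = true ∧
    allLt (fun j => leafOK row blk 48000 9129456 (rt (Nat.add 564 j))) 6 = true ∧
    allLt (fun j => leafOK row blk 48000 9129456 (rt (Nat.add 570 j))) 6 = true ∧
    allLt (fun j => leafOK row blk 48000 9129456 (rt (Nat.add 576 j))) 6 = true ∧
    allLt (fun j => leafOK row blk 48000 9129456 (rt (Nat.add 582 j))) 6 = true ∧
    allLt (fun j => leafOK row blk 48000 9129456 (rt (Nat.add 588 j))) 6 = true ∧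
    allLt (fun j => leafOK row blk 48000 9129456 (rt (Nat.add 594 j))) 6 = true ∧
    allLt (fun j => leafOK row blk 48000 9129456 (rt (Nat.add 600 j))) 6 = true ∧
    allLt (fun j => leafOK row blk 48000 9129456 (rt (Nat.add 606 j))) 6 = true ∧
    allLt (fun j => leafOK row blk 48000 9129456 (rt (Nat.add 612 j))) 6 = true ∧
    allLt (fun j => leafOK row blk 48000 9129456 (rt (Nat.add 618 j))) 6 = true ∧
    allLt (fun j => leafOK row blk 48000 9129456 (rt (Nat.add 624 j))) 6 = true ∧
    allLt (fun j => leafOK row blk 48000 9129456 (rt (Nat.add 630 j))) 6 = true ∧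
    allLt (fun j => leafOK row blk 48000 9129456 (rt (Nat.add 636 j))) 6 = true ∧
    allLt (fun j => leafOK row blk 48000 9129456 (rt (Nat.add 642 j))) 6 = true ∧
    allLt (fun j => leafOK row blk 48000 9129456 (rt (Nat.add 648 j))) 6 = true ∧
    allLt (fun j => leafOK row blk 48000 9129456 (rt (Nat.add 654 j))) 6 = true ∧
    allLt (fun j => leafOK row blk 48000 9129456 (rt (Nat.add 660 j))) 6 = true ∧
    allLt (fun j => leafOK row blk 48000 9129456 (rt (Nat.add 666 j))) 6 = true ∧
    allLt (fun j => leafOK row blk 48000 9129456 (rt (Nat.add 672 j))) 6 = true ∧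
    allLt (fun j => leafOK row blk 48000 9129456 (rt (Nat.add 678 j))) 6 = true ∧
    allLt (fun j => leafOK row blk 48000 9129456 (rt (Nat.add 684 j))) 6 = true ∧
    allLt (fun j => leafOK row blk 48000 9129456 (rt (Nat.add 690 j))) 6 = true ∧
    allLt (fun j => leafOK row blk 48000 9129456 (rt (Nat.add 696 j))) 6 = true ∧
    allLt (fun j => leafOK row blk 48000 9129456 (rt (Nat.add 702 j))) 6 = true ∧
    allLt (fun j => leafOK row blk 48000 9129456 (rt (Nat.add 708 j))) 6 = true ∧
    allLt (fun j => leafOK row blk 48000 9129456 (rt (Nat.add 714 j))) 6 = true ∧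
    allLt (fun j => leafOK row blk 48000 9129456 (rt (Nat.add 720 j))) 6 = true ∧
    allLt (fun j => leafOK row blk 48000 9129456 (rt (Nat.add 726 j))) 6 = true ∧
    allLt (fun j => leafOK row blk 48000 9129456 (rt (Nat.add 732 j))) 6 = true := by
  refine ⟨?_, ?_, ?_, ?_, ?_, ?_, ?_, ?_, ?_, ?_, ?_, ?_, ?_, ?_, ?_, ?_, ?_, ?_, ?_, ?_, ?_, ?_, ?_, ?_, ?_, ?_, ?_, ?_, ?_, ?_, ?_, ?_, ?_, ?_, ?_, ?_, ?_, ?_, ?_, ?_, ?_⟩ <;> decide +kernel

end Pool.Agent.H6N7
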