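import Pool.Agent.H6N7.L.L01
import Pool.Agent.H6N7.Leaf2
import Pool.Agent.H6N7.Blk
import Pool.Agent.H6N7.CovData

set_option autoImplicit false
set_option maxRecDepth 100000

/-!
# Kernel checks of the pointwise inequality (generated file)
-/

namespace Pool.Agent.H6N7

open Pool.Agent.H6Turan

theorem leafs_L03 :
    allLt (fun j => leafOK row blk 48000 9129456 (rt (Nat.add 738 j))) 6 = true ∧
    allLt (fun j => leafOK row blk 48000 9129456 (rt (Nat.add 744 j))) 6 = true ∧
    allLt (fun j => leafOK row blk 48000 9129456 (rt (Nat.add 750 j))) 6 = true ∧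
    allLt (fun j => leafOK row blk 48000 9129456 (rt (Nat.add 756 j))) 6 = true ∧
    allLt (fun j => leafOK row blk 48000 9129456 (rt (Nat.add 762 j))) 6 = true ∧
    allLt (fun j => leafOK row blk 48000 9129456 (rt (Nat.add 768 j))) 6 = true ∧
    allLt (fun j => leafOK row blk 48000 9129456 (rt (Nat.add 774 j))) 6 = true ∧
    allLt (fun j => leafOK row blk 48000 9129456 (rt (Nat.add 780 j))) 6 = true ∧
    allLt (fun j => leafOK row blk 48000 9129456 (rt (Nat.add 786 j))) 6 = true ∧
    allLt (fun j => leafOK row blk 48000 9129456 (rt (Nat.add 792 j))) 6 = true ∧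
    allLt (fun j => leafOK row blk 48000 9129456 (rt (Nat.add 798 j))) 6 = true ∧
    allLt (fun j => leafOK row blk 48000 9129456 (rt (Nat.add 804 j))) 6 = true ∧
    allLt (fun j => leafOK row blk 48000 9129456 (rt (Nat.add 810 j))) 6 = true ∧
    allLt (fun j => leafOK row blk 48000 9129456 (rt (Nat.add 816 j))) 6 = true ∧
    allLt (fun j => leafOK row blk 48000 9129456 (rt (Nat.add 822 j))) 6 = true ∧
    allLt (fun j => leafOK row blk 48000 9129456 (rt (Nat.add 828 j))) 6 = true ∧
    allLt (fun j => leafOK row blk 48000 9129456 (rt (Nat.add 834 j))) 6 = true ∧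
    allLt (fun j => leafOK row blk 48000 9129456 (rt (Nat.add 840 j))) 6 = true ∧
    allLt (fun j => leafOK row blk 48000 9129456 (rt (Nat.add 846 j))) 6 = true ∧
    allLt (fun j => leafOK row blk 48000 9129456 (rt (Nat.add 852 j))) 6 = true ∧
    allLt (fun j => leafOK row blk 48000 9129456 (rt (Nat.add 858 j))) 6 = true ∧
    allLt (fun j => leafOK row blk 48000 9129456 (rt (Nat.add 864 j))) 6 = true ∧
    allLt (fun j => leafOK row blk 48000 9129456 (rt (Nat.add 870 j))) 6 = true ∧
    allLt (fun j => leafOK row blk 48000 9129456 (rt (Nat.add 876 j))) 6 = true ∧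
    allLt (fun j => leafOK row blk 48000 9129456 (rt (Nat.add 882 j))) 6 = true ∧
    allLt (fun j => leafOK row blk 48000 9129456 (rt (Nat.add 888 j))) 6 = true ∧
    allLt (fun j => leafOK row blk 48000 9129456 (rt (Nat.add 894 j))) 6 = true ∧
    allLt (fun j => leafOK row blk 48000 9129456 (rt (Nat.add 900 j))) 6 = true ∧
    allLt (fun j => leafOK row blk 48000 9129456 (rt (Nat.add 906 j))) 6 = true ∧
    allLt (fun j => leafOK row blk 48000 9129456 (rt (Nat.add 912 j))) 6 = true ∧
    allLt (fun j => leafOK row blk 48000 9129456 (rt (Nat.add 918 j))) 6 = true ∧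
    allLt (fun j => leafOK row blk 48000 9129456 (rt (Nat.add 924 j))) 6 = true ∧
    allLt (fun j => leafOK row blk 48000 9129456 (rt (Nat.add 930 j))) 6 = true ∧
    allLt (fun j => leafOK row blk 48000 9129456 (rt (Nat.add 936 j))) 6 = true ∧
    allLt (fun j => leafOK row blk 48000 9129456 (rt (Nat.add 942 j))) 6 = true ∧
    allLt (fun j => leafOK row blk 48000 9129456 (rt (Nat.add 948 j))) 6 = true ∧
    allLt (fun j => leafOK row blk 48000 9129456 (rt (Nat.add 954 j))) 6 = true ∧
    allLt (fun j => leafOK row blk 48000 9129456 (rt (Nat.add 960 j))) 4 = true := by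
  refine ⟨?_, ?_, ?_, ?_, ?_, ?_, ?_, ?_, ?_, ?_, ?_, ?_, ?_, ?_, ?_, ?_, ?_, ?_, ?_, ?_, ?_, ?_, ?_, ?_, ?_, ?_, ?_, ?_, ?_, ?_, ?_, ?_, ?_, ?_, ?_, ?_, ?_, ?_⟩ <;> decide +kernel

end Pool.Agent.H6N7
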