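import Pool.Agent.H6N7.L.L00
import Pool.Agent.H6N7.L.L01
import Pool.Agent.H6N7.L.L02
import Pool.Agent.H6N7.L.L03

set_option autoImplicit false

/-!
# All pointwise checks (generated file)
-/

namespace Pool.Agent.H6N7

open Pool.Agent.H6Turan

theorem leaf_all (i : ℕ) (h : i < 964) : leafOK row blk 48000 9129456 (rt i) = true := by
  obtain ⟨k, hk⟩ : ∃ k, k = i / 6 := ⟨_, rfl⟩
  obtain ⟨j, hj⟩ : ∃ j, j = i % 6 := ⟨_, rfl⟩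
  have hi : i = 6 * k + j := by omega
  have hj2 : j < 6 := by omega
  have hk2 : k < 161 := by omega
  clear hk hj
  subst hi
  interval_cases k
  · exact allLt_spec leafs_L00.1 j (by omega)
  · exact allLt_spec leafs_L00.2.1 j (by omega)
  · exact allLt_spec leafs_L00.2.2.1 j (by omega)
  · exact allLt_spec leafs_L00.2.2.2.1 j (by omega)
  · exact allLt_spec leafs_L00.2.2.2.2.1 j (by omega)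
  · exact allLt_spec leafs_L00.2.2.2.2.2.1 j (by omega)
  · exact allLt_spec leafs_L00.2.2.2.2.2.2.1 j (by omega)
  · exact allLt_spec leafs_L00.2.2.2.2.2.2.2.1 j (by omega)
  · exact allLt_spec leafs_L00.2.2.2.2.2.2.2.2.1 j (by omega)
  · exact allLt_spec leafs_L00.2.2.2.2.2.2.2.2.2.1 j (by omega)
  · exact allLt_spec leafs_L00.2.2.2.2.2.2.2.2.2.2.1 j (by omega)
  · exact allLt_spec leafs_L00.2.2.2.2.2.2.2.2.2.2.2.1 j (by omega)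
  · exact allLt_spec leafs_L00.2.2.2.2.2.2.2.2.2.2.2.2.1 j (by omega)
  · exact allLt_spec leafs_L00.2.2.2.2.2.2.2.2.2.2.2.2.2.1 j (by omega)
  · exact allLt_spec leafs_L00.2.2.2.2.2.2.2.2.2.2.2.2.2.2.1 j (by omega)
  · exact allLt_spec leafs_L00.2.2.2.2.2.2.2.2.2.2.2.2.2.2.2.1 j (by omega)
  · exact allLt_spec leafs_L00.2.2.2.2.2.2.2.2.2.2.2.2.2.2.2.2.1 j (by omega)
  · exact allLt_spec leafs_L00.2.2.2.2.2.2.2.2.2.2.2.2.2.2.2.2.2.1 j (by omega)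
  · exact allLt_spec leafs_L00.2.2.2.2.2.2.2.2.2.2.2.2.2.2.2.2.2.2.1 j (by omega)
  · exact allLt_spec leafs_L00.2.2.2.2.2.2.2.2.2.2.2.2.2.2.2.2.2.2.2.1 j (by omega)
  · exact allLt_spec leafs_L00.2.2.2.2.2.2.2.2.2.2.2.2.2.2.2.2.2.2.2.2.1 j (by omega)
  · exact allLt_spec leafs_L00.2.2.2.2.2.2.2.2.2.2.2.2.2.2.2.2.2.2.2.2.2.1 j (by omega)
  · exact allLt_spec leafs_L00.2.2.2.2.2.2.2.2.2.2.2.2.2.2.2.2.2.2.2.2.2.2.1 j (by omega)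
  · exact allLt_spec leafs_L00.2.2.2.2.2.2.2.2.2.2.2.2.2.2.2.2.2.2.2.2.2.2.2.1 j (by omega)
  · exact allLt_spec leafs_L00.2.2.2.2.2.2.2.2.2.2.2.2.2.2.2.2.2.2.2.2.2.2.2.2.1 j (by omega)
  · exact allLt_spec leafs_L00.2.2.2.2.2.2.2.2.2.2.2.2.2.2.2.2.2.2.2.2.2.2.2.2.2.1 j (by omega)
  · exact allLt_spec leafs_L00.2.2.2.2.2.2.2.2.2.2.2.2.2.2.2.2.2.2.2.2.2.2.2.2.2.2.1 j (by omega)
  · exact allLt_spec leafs_L00.2.2.2.2.2.2.2.2.2.2.2.2.2.2.2.2.2.2.2.2.2.2.2.2.2.2.2.1 j (by omega)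
  · exact allLt_spec leafs_L00.2.2.2.2.2.2.2.2.2.2.2.2.2.2.2.2.2.2.2.2.2.2.2.2.2.2.2.2.1 j (by omega)
  · exact allLt_spec leafs_L00.2.2.2.2.2.2.2.2.2.2.2.2.2.2.2.2.2.2.2.2.2.2.2.2.2.2.2.2.2.1 j (by omega)
  · exact allLt_spec leafs_L00.2.2.2.2.2.2.2.2.2.2.2.2.2.2.2.2.2.2.2.2.2.2.2.2.2.2.2.2.2.2.1 j (by omega)
  · exact allLt_spec leafs_L00.2.2.2.2.2.2.2.2.2.2.2.2.2.2.2.2.2.2.2.2.2.2.2.2.2.2.2.2.2.2.2.1 j (by omega)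
  · exact allLt_spec leafs_L00.2.2.2.2.2.2.2.2.2.2.2.2.2.2.2.2.2.2.2.2.2.2.2.2.2.2.2.2.2.2.2.2.1 j (by omega)
  · exact allLt_spec leafs_L00.2.2.2.2.2.2.2.2.2.2.2.2.2.2.2.2.2.2.2.2.2.2.2.2.2.2.2.2.2.2.2.2.2.1 j (by omega)
  · exact allLt_spec leafs_L00.2.2.2.2.2.2.2.2.2.2.2.2.2.2.2.2.2.2.2.2.2.2.2.2.2.2.2.2.2.2.2.2.2.2.1 j (by omega)
  · exact allLt_spec leafs_L00.2.2.2.2.2.2.2.2.2.2.2.2.2.2.2.2.2.2.2.2.2.2.2.2.2.2.2.2.2.2.2.2.2.2.2.1 j (by omega)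
  · exact allLt_spec leafs_L00.2.2.2.2.2.2.2.2.2.2.2.2.2.2.2.2.2.2.2.2.2.2.2.2.2.2.2.2.2.2.2.2.2.2.2.2.1 j (by omega)
  · exact allLt_spec leafs_L00.2.2.2.2.2.2.2.2.2.2.2.2.2.2.2.2.2.2.2.2.2.2.2.2.2.2.2.2.2.2.2.2.2.2.2.2.2.1 j (by omega)
  · exact allLt_spec leafs_L00.2.2.2.2.2.2.2.2.2.2.2.2.2.2.2.2.2.2.2.2.2.2.2.2.2.2.2.2.2.2.2.2.2.2.2.2.2.2.1 j (by omega)
  · exact allLt_spec leafs_L00.2.2.2.2.2.2.2.2.2.2.2.2.2.2.2.2.2.2.2.2.2.2.2.2.2.2.2.2.2.2.2.2.2.2.2.2.2.2.2.1 j (by omega)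
  · exact allLt_spec leafs_L00.2.2.2.2.2.2.2.2.2.2.2.2.2.2.2.2.2.2.2.2.2.2.2.2.2.2.2.2.2.2.2.2.2.2.2.2.2.2.2.2 j (by omega)
  · exact allLt_spec leafs_L01.1 j (by omega)
  · exact allLt_spec leafs_L01.2.1 j (by omega)
  · exact allLt_spec leafs_L01.2.2.1 j (by omega)
  · exact allLt_spec leafs_L01.2.2.2.1 j (by omega)
  · exact allLt_spec leafs_L01.2.2.2.2.1 j (by omega)
  · exact allLt_spec leafs_L01.2.2.2.2.2.1 j (by omega)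
  · exact allLt_spec leafs_L01.2.2.2.2.2.2.1 j (by omega)
  · exact allLt_spec leafs_L01.2.2.2.2.2.2.2.1 j (by omega)
  · exact allLt_spec leafs_L01.2.2.2.2.2.2.2.2.1 j (by omega)
  · exact allLt_spec leafs_L01.2.2.2.2.2.2.2.2.2.1 j (by omega)
  · exact allLt_spec leafs_L01.2.2.2.2.2.2.2.2.2.2.1 j (by omega)
  · exact allLt_spec leafs_L01.2.2.2.2.2.2.2.2.2.2.2.1 j (by omega)
  · exact allLt_spec leafs_L01.2.2.2.2.2.2.2.2.2.2.2.2.1 j (by omega)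
  · exact allLt_spec leafs_L01.2.2.2.2.2.2.2.2.2.2.2.2.2.1 j (by omega)
  · exact allLt_spec leafs_L01.2.2.2.2.2.2.2.2.2.2.2.2.2.2.1 j (by omega)
  · exact allLt_spec leafs_L01.2.2.2.2.2.2.2.2.2.2.2.2.2.2.2.1 j (by omega)
  · exact allLt_spec leafs_L01.2.2.2.2.2.2.2.2.2.2.2.2.2.2.2.2.1 j (by omega)
  · exact allLt_spec leafs_L01.2.2.2.2.2.2.2.2.2.2.2.2.2.2.2.2.2.1 j (by omega)
  · exact allLt_spec leafs_L01.2.2.2.2.2.2.2.2.2.2.2.2.2.2.2.2.2.2.1 j (by omega)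
  · exact allLt_spec leafs_L01.2.2.2.2.2.2.2.2.2.2.2.2.2.2.2.2.2.2.2.1 j (by omega)
  · exact allLt_spec leafs_L01.2.2.2.2.2.2.2.2.2.2.2.2.2.2.2.2.2.2.2.2.1 j (by omega)
  · exact allLt_spec leafs_L01.2.2.2.2.2.2.2.2.2.2.2.2.2.2.2.2.2.2.2.2.2.1 j (by omega)
  · exact allLt_spec leafs_L01.2.2.2.2.2.2.2.2.2.2.2.2.2.2.2.2.2.2.2.2.2.2.1 j (by omega)
  · exact allLt_spec leafs_L01.2.2.2.2.2.2.2.2.2.2.2.2.2.2.2.2.2.2.2.2.2.2.2.1 j (by omega)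
  · exact allLt_spec leafs_L01.2.2.2.2.2.2.2.2.2.2.2.2.2.2.2.2.2.2.2.2.2.2.2.2.1 j (by omega)
  · exact allLt_spec leafs_L01.2.2.2.2.2.2.2.2.2.2.2.2.2.2.2.2.2.2.2.2.2.2.2.2.2.1 j (by omega)
  · exact allLt_spec leafs_L01.2.2.2.2.2.2.2.2.2.2.2.2.2.2.2.2.2.2.2.2.2.2.2.2.2.2.1 j (by omega)
  · exact allLt_spec leafs_L01.2.2.2.2.2.2.2.2.2.2.2.2.2.2.2.2.2.2.2.2.2.2.2.2.2.2.2.1 j (by omega)
  · exact allLt_spec leafs_L01.2.2.2.2.2.2.2.2.2.2.2.2.2.2.2.2.2.2.2.2.2.2.2.2.2.2.2.2.1 j (by omega)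
  · exact allLt_spec leafs_L01.2.2.2.2.2.2.2.2.2.2.2.2.2.2.2.2.2.2.2.2.2.2.2.2.2.2.2.2.2.1 j (by omega)
  · exact allLt_spec leafs_L01.2.2.2.2.2.2.2.2.2.2.2.2.2.2.2.2.2.2.2.2.2.2.2.2.2.2.2.2.2.2.1 j (by omega)
  · exact allLt_spec leafs_L01.2.2.2.2.2.2.2.2.2.2.2.2.2.2.2.2.2.2.2.2.2.2.2.2.2.2.2.2.2.2.2.1 j (by omega)
  · exact allLt_spec leafs_L01.2.2.2.2.2.2.2.2.2.2.2.2.2.2.2.2.2.2.2.2.2.2.2.2.2.2.2.2.2.2.2.2.1 j (by omega)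
  · exact allLt_spec leafs_L01.2.2.2.2.2.2.2.2.2.2.2.2.2.2.2.2.2.2.2.2.2.2.2.2.2.2.2.2.2.2.2.2.2.1 j (by omega)
  · exact allLt_spec leafs_L01.2.2.2.2.2.2.2.2.2.2.2.2.2.2.2.2.2.2.2.2.2.2.2.2.2.2.2.2.2.2.2.2.2.2.1 j (by omega)
  · exact allLt_spec leafs_L01.2.2.2.2.2.2.2.2.2.2.2.2.2.2.2.2.2.2.2.2.2.2.2.2.2.2.2.2.2.2.2.2.2.2.2.1 j (by omega)
  · exact allLt_spec leafs_L01.2.2.2.2.2.2.2.2.2.2.2.2.2.2.2.2.2.2.2.2.2.2.2.2.2.2.2.2.2.2.2.2.2.2.2.2.1 j (by omega)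
  · exact allLt_spec leafs_L01.2.2.2.2.2.2.2.2.2.2.2.2.2.2.2.2.2.2.2.2.2.2.2.2.2.2.2.2.2.2.2.2.2.2.2.2.2.1 j (by omega)
  · exact allLt_spec leafs_L01.2.2.2.2.2.2.2.2.2.2.2.2.2.2.2.2.2.2.2.2.2.2.2.2.2.2.2.2.2.2.2.2.2.2.2.2.2.2.1 j (by omega)
  · exact allLt_spec leafs_L01.2.2.2.2.2.2.2.2.2.2.2.2.2.2.2.2.2.2.2.2.2.2.2.2.2.2.2.2.2.2.2.2.2.2.2.2.2.2.2.1 j (by omega)
  · exact allLt_spec leafs_L01.2.2.2.2.2.2.2.2.2.2.2.2.2.2.2.2.2.2.2.2.2.2.2.2.2.2.2.2.2.2.2.2.2.2.2.2.2.2.2.2 j (by omega)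
  · exact allLt_spec leafs_L02.1 j (by omega)
  · exact allLt_spec leafs_L02.2.1 j (by omega)
  · exact allLt_spec leafs_L02.2.2.1 j (by omega)
  · exact allLt_spec leafs_L02.2.2.2.1 j (by omega)
  · exact allLt_spec leafs_L02.2.2.2.2.1 j (by omega)
  · exact allLt_spec leafs_L02.2.2.2.2.2.1 j (by omega)
  · exact allLt_spec leafs_L02.2.2.2.2.2.2.1 j (by omega)
  · exact allLt_spec leafs_L02.2.2.2.2.2.2.2.1 j (by omega)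
  · exact allLt_spec leafs_L02.2.2.2.2.2.2.2.2.1 j (by omega)
  · exact allLt_spec leafs_L02.2.2.2.2.2.2.2.2.2.1 j (by omega)
  · exact allLt_spec leafs_L02.2.2.2.2.2.2.2.2.2.2.1 j (by omega)
  · exact allLt_spec leafs_L02.2.2.2.2.2.2.2.2.2.2.2.1 j (by omega)
  · exact allLt_spec leafs_L02.2.2.2.2.2.2.2.2.2.2.2.2.1 j (by omega)
  · exact allLt_spec leafs_L02.2.2.2.2.2.2.2.2.2.2.2.2.2.1 j (by omega)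
  · exact allLt_spec leafs_L02.2.2.2.2.2.2.2.2.2.2.2.2.2.2.1 j (by omega)
  · exact allLt_spec leafs_L02.2.2.2.2.2.2.2.2.2.2.2.2.2.2.2.1 j (by omega)
  · exact allLt_spec leafs_L02.2.2.2.2.2.2.2.2.2.2.2.2.2.2.2.2.1 j (by omega)
  · exact allLt_spec leafs_L02.2.2.2.2.2.2.2.2.2.2.2.2.2.2.2.2.2.1 j (by omega)
  · exact allLt_spec leafs_L02.2.2.2.2.2.2.2.2.2.2.2.2.2.2.2.2.2.2.1 j (by omega)
  · exact allLt_spec leafs_L02.2.2.2.2.2.2.2.2.2.2.2.2.2.2.2.2.2.2.2.1 j (by omega)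
  · exact allLt_spec leafs_L02.2.2.2.2.2.2.2.2.2.2.2.2.2.2.2.2.2.2.2.2.1 j (by omega)
  · exact allLt_spec leafs_L02.2.2.2.2.2.2.2.2.2.2.2.2.2.2.2.2.2.2.2.2.2.1 j (by omega)
  · exact allLt_spec leafs_L02.2.2.2.2.2.2.2.2.2.2.2.2.2.2.2.2.2.2.2.2.2.2.1 j (by omega)
  · exact allLt_spec leafs_L02.2.2.2.2.2.2.2.2.2.2.2.2.2.2.2.2.2.2.2.2.2.2.2.1 j (by omega)
  · exact allLt_spec leafs_L02.2.2.2.2.2.2.2.2.2.2.2.2.2.2.2.2.2.2.2.2.2.2.2.2.1 j (by omega)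
  · exact allLt_spec leafs_L02.2.2.2.2.2.2.2.2.2.2.2.2.2.2.2.2.2.2.2.2.2.2.2.2.2.1 j (by omega)
  · exact allLt_spec leafs_L02.2.2.2.2.2.2.2.2.2.2.2.2.2.2.2.2.2.2.2.2.2.2.2.2.2.2.1 j (by omega)
  · exact allLt_spec leafs_L02.2.2.2.2.2.2.2.2.2.2.2.2.2.2.2.2.2.2.2.2.2.2.2.2.2.2.2.1 j (by omega)
  · exact allLt_spec leafs_L02.2.2.2.2.2.2.2.2.2.2.2.2.2.2.2.2.2.2.2.2.2.2.2.2.2.2.2.2.1 j (by omega)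
  · exact allLt_spec leafs_L02.2.2.2.2.2.2.2.2.2.2.2.2.2.2.2.2.2.2.2.2.2.2.2.2.2.2.2.2.2.1 j (by omega)
  · exact allLt_spec leafs_L02.2.2.2.2.2.2.2.2.2.2.2.2.2.2.2.2.2.2.2.2.2.2.2.2.2.2.2.2.2.2.1 j (by omega)
  · exact allLt_spec leafs_L02.2.2.2.2.2.2.2.2.2.2.2.2.2.2.2.2.2.2.2.2.2.2.2.2.2.2.2.2.2.2.2.1 j (by omega)
  · exact allLt_spec leafs_L02.2.2.2.2.2.2.2.2.2.2.2.2.2.2.2.2.2.2.2.2.2.2.2.2.2.2.2.2.2.2.2.2.1 j (by omega)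
  · exact allLt_spec leafs_L02.2.2.2.2.2.2.2.2.2.2.2.2.2.2.2.2.2.2.2.2.2.2.2.2.2.2.2.2.2.2.2.2.2.1 j (by omega)
  · exact allLt_spec leafs_L02.2.2.2.2.2.2.2.2.2.2.2.2.2.2.2.2.2.2.2.2.2.2.2.2.2.2.2.2.2.2.2.2.2.2.1 j (by omega)
  · exact allLt_spec leafs_L02.2.2.2.2.2.2.2.2.2.2.2.2.2.2.2.2.2.2.2.2.2.2.2.2.2.2.2.2.2.2.2.2.2.2.2.1 j (by omega)
  · exact allLt_spec leafs_L02.2.2.2.2.2.2.2.2.2.2.2.2.2.2.2.2.2.2.2.2.2.2.2.2.2.2.2.2.2.2.2.2.2.2.2.2.1 j (by omega)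
  · exact allLt_spec leafs_L02.2.2.2.2.2.2.2.2.2.2.2.2.2.2.2.2.2.2.2.2.2.2.2.2.2.2.2.2.2.2.2.2.2.2.2.2.2.1 j (by omega)
  · exact allLt_spec leafs_L02.2.2.2.2.2.2.2.2.2.2.2.2.2.2.2.2.2.2.2.2.2.2.2.2.2.2.2.2.2.2.2.2.2.2.2.2.2.2.1 j (by omega)
  · exact allLt_spec leafs_L02.2.2.2.2.2.2.2.2.2.2.2.2.2.2.2.2.2.2.2.2.2.2.2.2.2.2.2.2.2.2.2.2.2.2.2.2.2.2.2.1 j (by omega)
  · exact allLt_spec leafs_L02.2.2.2.2.2.2.2.2.2.2.2.2.2.2.2.2.2.2.2.2.2.2.2.2.2.2.2.2.2.2.2.2.2.2.2.2.2.2.2.2 j (by omega)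
  · exact allLt_spec leafs_L03.1 j (by omega)
  · exact allLt_spec leafs_L03.2.1 j (by omega)
  · exact allLt_spec leafs_L03.2.2.1 j (by omega)
  · exact allLt_spec leafs_L03.2.2.2.1 j (by omega)
  · exact allLt_spec leafs_L03.2.2.2.2.1 j (by omega)
  · exact allLt_spec leafs_L03.2.2.2.2.2.1 j (by omega)
  · exact allLt_spec leafs_L03.2.2.2.2.2.2.1 j (by omega)
  · exact allLt_spec leafs_L03.2.2.2.2.2.2.2.1 j (by omega)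
  · exact allLt_spec leafs_L03.2.2.2.2.2.2.2.2.1 j (by omega)
  · exact allLt_spec leafs_L03.2.2.2.2.2.2.2.2.2.1 j (by omega)
  · exact allLt_spec leafs_L03.2.2.2.2.2.2.2.2.2.2.1 j (by omega)
  · exact allLt_spec leafs_L03.2.2.2.2.2.2.2.2.2.2.2.1 j (by omega)
  · exact allLt_spec leafs_L03.2.2.2.2.2.2.2.2.2.2.2.2.1 j (by omega)
  · exact allLt_spec leafs_L03.2.2.2.2.2.2.2.2.2.2.2.2.2.1 j (by omega)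
  · exact allLt_spec leafs_L03.2.2.2.2.2.2.2.2.2.2.2.2.2.2.1 j (by omega)
  · exact allLt_spec leafs_L03.2.2.2.2.2.2.2.2.2.2.2.2.2.2.2.1 j (by omega)
  · exact allLt_spec leafs_L03.2.2.2.2.2.2.2.2.2.2.2.2.2.2.2.2.1 j (by omega)
  · exact allLt_spec leafs_L03.2.2.2.2.2.2.2.2.2.2.2.2.2.2.2.2.2.1 j (by omega)
  · exact allLt_spec leafs_L03.2.2.2.2.2.2.2.2.2.2.2.2.2.2.2.2.2.2.1 j (by omega)
  · exact allLt_spec leafs_L03.2.2.2.2.2.2.2.2.2.2.2.2.2.2.2.2.2.2.2.1 j (by omega)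
  · exact allLt_spec leafs_L03.2.2.2.2.2.2.2.2.2.2.2.2.2.2.2.2.2.2.2.2.1 j (by omega)
  · exact allLt_spec leafs_L03.2.2.2.2.2.2.2.2.2.2.2.2.2.2.2.2.2.2.2.2.2.1 j (by omega)
  · exact allLt_spec leafs_L03.2.2.2.2.2.2.2.2.2.2.2.2.2.2.2.2.2.2.2.2.2.2.1 j (by omega)
  · exact allLt_spec leafs_L03.2.2.2.2.2.2.2.2.2.2.2.2.2.2.2.2.2.2.2.2.2.2.2.1 j (by omega)
  · exact allLt_spec leafs_L03.2.2.2.2.2.2.2.2.2.2.2.2.2.2.2.2.2.2.2.2.2.2.2.2.1 j (by omega)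
  · exact allLt_spec leafs_L03.2.2.2.2.2.2.2.2.2.2.2.2.2.2.2.2.2.2.2.2.2.2.2.2.2.1 j (by omega)
  · exact allLt_spec leafs_L03.2.2.2.2.2.2.2.2.2.2.2.2.2.2.2.2.2.2.2.2.2.2.2.2.2.2.1 j (by omega)
  · exact allLt_spec leafs_L03.2.2.2.2.2.2.2.2.2.2.2.2.2.2.2.2.2.2.2.2.2.2.2.2.2.2.2.1 j (by omega)
  · exact allLt_spec leafs_L03.2.2.2.2.2.2.2.2.2.2.2.2.2.2.2.2.2.2.2.2.2.2.2.2.2.2.2.2.1 j (by omega)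
  · exact allLt_spec leafs_L03.2.2.2.2.2.2.2.2.2.2.2.2.2.2.2.2.2.2.2.2.2.2.2.2.2.2.2.2.2.1 j (by omega)
  · exact allLt_spec leafs_L03.2.2.2.2.2.2.2.2.2.2.2.2.2.2.2.2.2.2.2.2.2.2.2.2.2.2.2.2.2.2.1 j (by omega)
  · exact allLt_spec leafs_L03.2.2.2.2.2.2.2.2.2.2.2.2.2.2.2.2.2.2.2.2.2.2.2.2.2.2.2.2.2.2.2.1 j (by omega)
  · exact allLt_spec leafs_L03.2.2.2.2.2.2.2.2.2.2.2.2.2.2.2.2.2.2.2.2.2.2.2.2.2.2.2.2.2.2.2.2.1 j (by omega)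
  · exact allLt_spec leafs_L03.2.2.2.2.2.2.2.2.2.2.2.2.2.2.2.2.2.2.2.2.2.2.2.2.2.2.2.2.2.2.2.2.2.1 j (by omega)
  · exact allLt_spec leafs_L03.2.2.2.2.2.2.2.2.2.2.2.2.2.2.2.2.2.2.2.2.2.2.2.2.2.2.2.2.2.2.2.2.2.2.1 j (by omega)
  · exact allLt_spec leafs_L03.2.2.2.2.2.2.2.2.2.2.2.2.2.2.2.2.2.2.2.2.2.2.2.2.2.2.2.2.2.2.2.2.2.2.2.1 j (by omega)
  · exact allLt_spec leafs_L03.2.2.2.2.2.2.2.2.2.2.2.2.2.2.2.2.2.2.2.2.2.2.2.2.2.2.2.2.2.2.2.2.2.2.2.2.1 j (by omega)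
  · exact allLt_spec leafs_L03.2.2.2.2.2.2.2.2.2.2.2.2.2.2.2.2.2.2.2.2.2.2.2.2.2.2.2.2.2.2.2.2.2.2.2.2.2 j (by omega)

end Pool.Agent.H6N7
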