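import Pool.Agent.H6N7.Leaf2
import Pool.Agent.H6N7.Blk
import Pool.Agent.H6N7.CovData

set_option autoImplicit false
set_option maxRecDepth 100000

/-!
# Kernel checks of the pointwise inequality (generated file)
-/

namespace Pool.Agent.H6N7

open Pool.Agent.H6Turan

theorem leafs_L00 :
    allLt (fun j => leafOK row blk 48000 9129456 (rt (Nat.add 0 j))) 6 = true ∧
    allLt (fun j => leafOK row blk 48000 9129456 (rt (Nat.add 6 j))) 6 = true ∧
    allLt (fun j => leafOK row blk 48000 9129456 (rt (Nat.add 12 j))) 6 = true ∧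
    allLt (fun j => leafOK row blk 48000 9129456 (rt (Nat.add 18 j))) 6 = true ∧
    allLt (fun j => leafOK row blk 48000 9129456 (rt (Nat.add 24 j))) 6 = true ∧
    allLt (fun j => leafOK row blk 48000 9129456 (rt (Nat.add 30 j))) 6 = true ∧
    allLt (fun j => leafOK row blk 48000 9129456 (rt (Nat.add 36 j))) 6 = true ∧
    allLt (fun j => leafOK row blk 48000 9129456 (rt (Nat.add 42 j))) 6 = true ∧
    allLt (fun j => leafOK row blk 48000 9129456 (rt (Nat.add 48 j))) 6 = true ∧
    allLt (fun j => leafOK row blk 48000 9129456 (rt (Nat.add 54 j))) 6 = true ∧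
    allLt (fun j => leafOK row blk 48000 9129456 (rt (Nat.add 60 j))) 6 = true ∧
    allLt (fun j => leafOK row blk 48000 9129456 (rt (Nat.add 66 j))) 6 = true ∧
    allLt (fun j => leafOK row blk 48000 9129456 (rt (Nat.add 72 j))) 6 = true ∧
    allLt (fun j => leafOK row blk 48000 9129456 (rt (Nat.add 78 j))) 6 = true ∧
    allLt (fun j => leafOK row blk 48000 9129456 (rt (Nat.add 84 j))) 6 = true ∧
    allLt (fun j => leafOK row blk 48000 9129456 (rt (Nat.add 90 j))) 6 = true ∧
    allLt (fun j => leafOK row blk 48000 9129456 (rt (Nat.add 96 j))) 6 = true ∧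
    allLt (fun j => leafOK row blk 48000 9129456 (rt (Nat.add 102 j))) 6 = true ∧
    allLt (fun j => leafOK row blk 48000 9129456 (rt (Nat.add 108 j))) 6 = true ∧
    allLt (fun j => leafOK row blk 48000 9129456 (rt (Nat.add 114 j))) 6 = true ∧
    allLt (fun j => leafOK row blk 48000 9129456 (rt (Nat.add 120 j))) 6 = true ∧
    allLt (fun j => leafOK row blk 48000 9129456 (rt (Nat.add 126 j))) 6 = true ∧
    allLt (fun j => leafOK row blk 48000 9129456 (rt (Nat.add 132 j))) 6 = true ∧
    allLt (fun j => leafOK row blk 48000 9129456 (rt (Nat.add 138 j))) 6 = true ∧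
    allLt (fun j => leafOK row blk 48000 9129456 (rt (Nat.add 144 j))) 6 = true ∧
    allLt (fun j => leafOK row blk 48000 9129456 (rt (Nat.add 150 j))) 6 = true ∧
    allLt (fun j => leafOK row blk 48000 9129456 (rt (Nat.add 156 j))) 6 = true ∧
    allLt (fun j => leafOK row blk 48000 9129456 (rt (Nat.add 162 j))) 6 = true ∧
    allLt (fun j => leafOK row blk 48000 9129456 (rt (Nat.add 168 j))) 6 = true ∧
    allLt (fun j => leafOK row blk 48000 9129456 (rt (Nat.add 174 j))) 6 = true ∧
    allLt (fun j => leafOK row blk 48000 9129456 (rt (Nat.add 180 j))) 6 = true ∧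
    allLt (fun j => leafOK row blk 48000 9129456 (rt (Nat.add 186 j))) 6 = true ∧
    allLt (fun j => leafOK row blk 48000 9129456 (rt (Nat.add 192 j))) 6 = true ∧
    allLt (fun j => leafOK row blk 48000 9129456 (rt (Nat.add 198 j))) 6 = true ∧
    allLt (fun j => leafOK row blk 48000 9129456 (rt (Nat.add 204 j))) 6 = true ∧
    allLt (fun j => leafOK row blk 48000 9129456 (rt (Nat.add 210 j))) 6 = true ∧
    allLt (fun j => leafOK row blk 48000 9129456 (rt (Nat.add 216 j))) 6 = true ∧
    allLt (fun j => leafOK row blk 48000 9129456 (rt (Nat.add 222 j))) 6 = true ∧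
    allLt (fun j => leafOK row blk 48000 9129456 (rt (Nat.add 228 j))) 6 = true ∧
    allLt (fun j => leafOK row blk 48000 9129456 (rt (Nat.add 234 j))) 6 = true ∧
    allLt (fun j => leafOK row blk 48000 9129456 (rt (Nat.add 240 j))) 6 = true := by
  refine ⟨?_, ?_, ?_, ?_, ?_, ?_, ?_, ?_, ?_, ?_, ?_, ?_, ?_, ?_, ?_, ?_, ?_, ?_, ?_, ?_, ?_, ?_, ?_, ?_, ?_, ?_, ?_, ?_, ?_, ?_, ?_, ?_, ?_, ?_, ?_, ?_, ?_, ?_, ?_, ?_, ?_⟩ <;> decide +kernel

end Pool.Agent.H6N7
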